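import Mathlib

/-!
The identity for the Bhargava factorials of the primes in prime triplets fails at `n = 28`:
the prime `29` does not belong to a triplet `(p, p + 2, p + 6)`, hence all elements of `P3` are units
modulo `29` and `29` divides `28!_{P3}`; but `29` divides neither `28!_P` nor the conjectured ratio `24`.
-/

set_option autoImplicit false
open Finset

namespace Pool.Agent.Results.MP_1b3ee4_nt.FailsAtTwentyEight

/-- `w p a` is the largest power of `p` dividing the nonzero integer `a`. -/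
def w (p : ℕ) (a : ℤ) : ℕ := p ^ padicValInt p a

/-- The elements `a 0, ..., a n` are the first `n + 1` terms of a `p`-ordering of `X`: each `a k` is an element
of `X` different from the previous ones which minimises `w p (∏_{i < k} (a k - a i))` among these. -/
def IsPOrdering (X : Set ℤ) (p n : ℕ) (a : ℕ → ℤ) : Prop :=
  ∀ k ≤ n, a k ∈ X ∧ (∀ i < k, a k ≠ a i) ∧ ∀ x ∈ X, (∀ i < k, x ≠ a i) →
    w p (∏ i ∈ range k, (a k - a i)) ≤ w p (∏ i ∈ range k, (x - a i))

/-- `N` is the Bhargava factorial `n!_X`, computed with some `p`-orderings `a p` of `X` for the primes `p`: only finitely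
many of the numbers `ν_n(X, p) = w p (∏_{i < n} (a n - a i))` differ from `1`, and `N` is their product. -/
def IsFactorial (X : Set ℤ) (n N : ℕ) : Prop :=
  ∃ a : ℕ → ℕ → ℤ, (∀ p, p.Prime → IsPOrdering X p n (a p)) ∧
    {p : ℕ | p.Prime ∧ w p (∏ i ∈ range n, (a p n - a p i)) ≠ 1}.Finite ∧
    N = ∏ᶠ (p : ℕ) (_ : p.Prime), w p (∏ i ∈ range n, (a p n - a p i))

/-- the set of all primes -/
def P : Set ℤ := {q | ∃ p : ℕ, p.Prime ∧ q = p}

/-- the set of the members of the prime triplets `(p, p + 2, p + 6)` -/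
def P3 : Set ℤ := {q | ∃ p : ℕ, p.Prime ∧ (p + 2).Prime ∧ (p + 6).Prime ∧ (q = p ∨ q = p + 2 ∨ q = p + 6)}

/-- the conjectured value of `n!_{P3} / n!_P` -/
def ratio (n : ℕ) : ℕ := if Even n then Nat.factorial 3 * w 2 n * w 3 n else 2

theorem w_pos {p : ℕ} (hp : p.Prime) (a : ℤ) : 0 < w p a := pow_pos hp.pos _

theorem w_eq_one {p : ℕ} {a : ℤ} (h : ¬ (p : ℤ) ∣ a) : w p a = 1 := by
  rw [w, padicValInt.eq_zero_of_not_dvd h, pow_zero]

theorem dvd_w {p : ℕ} (hp : p.Prime) {a : ℤ} (ha : a ≠ 0) (h : (p : ℤ) ∣ a) : p ∣ w p a := by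
  have := Fact.mk hp
  unfold w
  apply dvd_pow_self
  intro h0
  have : (p : ℤ) ^ 1 ∣ a := by simpa using h
  rw [padicValInt_dvd_iff] at this
  rcases this with h1 | h1
  · exact ha h1
  · omega

theorem prod_ne_zero' {a : ℕ → ℤ} {k : ℕ} {x : ℤ} (h : ∀ i < k, x ≠ a i) :
    ∏ i ∈ range k, (x - a i) ≠ 0 := by
  rw [Finset.prod_ne_zero_iff]
  intro i hi
  exact sub_ne_zero.mpr (h i (mem_range.mp hi))

/-- the minimum is `1` if some element of `X` lies in a new class -/
theorem nu_eq_one {X : Set ℤ} {p n : ℕ} (hp : p.Prime) {a : ℕ → ℤ} (ha : IsPOrdering X p n a) {x : ℤ}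
    (hx : x ∈ X) (h : ∀ i < n, ¬ (p : ℤ) ∣ x - a i) : w p (∏ i ∈ range n, (a n - a i)) = 1 := by
  have hne : ∀ i < n, x ≠ a i := by
    intro i hi he
    exact h i hi (by rw [he, sub_self]; exact dvd_zero _)
  have h1 := (ha n le_rfl).2.2 x hx hne
  have h2 : w p (∏ i ∈ range n, (x - a i)) = 1 := by
    apply w_eq_one
    rw [(Nat.prime_iff_prime_int.mp hp).dvd_finsetProd_iff]
    rintro ⟨i, hi, hd⟩
    exact h i (mem_range.mp hi) hd
  have := w_pos hp (∏ i ∈ range n, (a n - a i))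
  omega

/-- pigeonhole: a finite subset of `X` with more than `n` elements which are distinct modulo `p` -/
theorem nu_eq_one' {X : Set ℤ} {p n : ℕ} (hp : p.Prime) {a : ℕ → ℤ} (ha : IsPOrdering X p n a) (T : Finset ℤ)
    (hT : ∀ x ∈ T, x ∈ X) (hcard : n < T.card) (hdis : ∀ x ∈ T, ∀ y ∈ T, (p : ℤ) ∣ x - y → x = y) :
    w p (∏ i ∈ range n, (a n - a i)) = 1 := by
  by_contra hcon
  have h : ∀ x ∈ T, ∃ i ∈ range n, (p : ℤ) ∣ x - a i := by
    intro x hx
    by_contra hc
    push Not at hc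
    exact hcon (nu_eq_one hp ha (hT x hx) fun i hi => hc i (mem_range.mpr hi))
  choose! f hf1 hf2 using h
  obtain ⟨x, hx, y, hy, hxy, he⟩ := Finset.exists_ne_map_eq_of_card_lt_of_maps_to
    (by rw [card_range]; exact hcard) hf1
  apply hxy
  apply hdis x hx y hy
  have h1 := hf2 x hx
  have h2 := hf2 y hy
  rw [he] at h1
  have : x - y = (x - a (f y)) - (y - a (f y)) := by ring
  rw [this]
  exact dvd_sub h1 h2

theorem exists_pordering {X : Set ℤ} {p : ℕ} (n : ℕ) (T : Finset ℤ)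
    (hT : ∀ x ∈ T, x ∈ X) (hcard : n < T.card) : ∃ a, IsPOrdering X p n a := by
  classical
  -- one more element
  have step : ∀ (m : ℕ) (a : ℕ → ℤ), m ≤ n → ∃ y, y ∈ X ∧ (∀ i < m, y ≠ a i) ∧ ∀ x ∈ X, (∀ i < m, x ≠ a i) →
      w p (∏ i ∈ range m, (y - a i)) ≤ w p (∏ i ∈ range m, (x - a i)) := by
    intro m a hm
    let S : Set ℤ := {x | x ∈ X ∧ ∀ i < m, x ≠ a i}
    have hS : S.Nonempty := by
      by_contra hc
      rw [Set.not_nonempty_iff_eq_empty] at hc
      have h1 : T ⊆ (range m).image a := by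
        intro x hx
        by_contra hx'
        have : x ∈ S := ⟨hT x hx, fun i hi he => hx' (mem_image.mpr ⟨i, mem_range.mpr hi, he.symm⟩)⟩
        rw [hc] at this
        exact this
      have h2 := (card_le_card h1).trans card_image_le
      rw [card_range] at h2
      omega
    let g : ℤ → ℕ := fun x => w p (∏ i ∈ range m, (x - a i))
    obtain ⟨y, hy, hmin⟩ : ∃ y ∈ S, ∀ x ∈ S, g y ≤ g x := by
      have hne : (g '' S).Nonempty := hS.image g
      obtain ⟨y, hy, he⟩ := Nat.sInf_mem hne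
      refine ⟨y, hy, fun x hx => ?_⟩
      rw [he]
      exact Nat.sInf_le ⟨x, hx, rfl⟩
    exact ⟨y, hy.1, hy.2, fun x hx hx' => hmin x ⟨hx, hx'⟩⟩
  have main : ∀ m ≤ n, ∃ a, IsPOrdering X p m a := by
    intro m
    induction m with
    | zero =>
      intro _
      obtain ⟨y, hy, -, -⟩ := step 0 (fun _ => 0) (Nat.zero_le _)
      refine ⟨fun _ => y, fun k hk => ?_⟩
      obtain rfl : k = 0 := by omega
      exact ⟨hy, fun i hi => absurd hi (Nat.not_lt_zero _), fun x _ _ => by simp⟩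
    | succ m ih =>
      intro hm
      obtain ⟨a, ha⟩ := ih (by omega)
      obtain ⟨y, hy1, hy2, hy3⟩ := step (m + 1) a hm
      refine ⟨Function.update a (m + 1) y, fun k hk => ?_⟩
      have hu : ∀ i, i < m + 1 → Function.update a (m + 1) y i = a i := fun i hi =>
        Function.update_of_ne (by omega) _ _
      have hprod : ∀ k ≤ m + 1, ∀ x : ℤ, ∏ i ∈ range k, (x - Function.update a (m + 1) y i) =
          ∏ i ∈ range k, (x - a i) := by
        intro k hk x
        refine prod_congr rfl fun i hi => ?_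
        rw [hu i (by have := mem_range.mp hi; omega)]
      have hlt : ∀ k ≤ m + 1, ∀ x : ℤ, (∀ i < k, x ≠ Function.update a (m + 1) y i) ↔ ∀ i < k, x ≠ a i := by
        intro k hk x
        refine forall₂_congr fun i hi => ?_
        rw [hu i (by omega)]
      rcases Nat.lt_or_ge k (m + 1) with hk' | hk'
      · rw [hu k hk', hlt k hk]
        refine ⟨(ha k (by omega)).1, (ha k (by omega)).2.1, fun x hx hx' => ?_⟩
        rw [hprod k hk, hprod k hk]
        exact (ha k (by omega)).2.2 x hx ((hlt k hk x).mp hx')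
      · obtain rfl : k = m + 1 := by omega
        rw [Function.update_self, hlt _ le_rfl]
        refine ⟨hy1, hy2, fun x hx hx' => ?_⟩
        rw [hprod _ le_rfl, hprod _ le_rfl]
        exact hy3 x hx ((hlt _ le_rfl x).mp hx')
  exact main n le_rfl

theorem exists_factorial {X : Set ℤ} (n : ℕ) (T : Finset ℤ)
    (hT : ∀ x ∈ T, x ∈ X) (hcard : n < T.card) : ∃ N, IsFactorial X n N := by
  classical
  choose a ha using fun p : ℕ => exists_pordering (X := X) (p := p) n T hT hcard
  refine ⟨_, a, fun p _ => ha p, ?_, rfl⟩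
  obtain ⟨B, hB⟩ : ∃ B : ℕ, ∀ x ∈ T, ∀ y ∈ T, (x - y).natAbs ≤ B := by
    refine ⟨∑ x ∈ T, ∑ y ∈ T, (x - y).natAbs, fun x hx y hy => ?_⟩
    exact (single_le_sum (f := fun y => (x - y).natAbs) (fun _ _ => Nat.zero_le _) hy).trans
      (single_le_sum (f := fun x => ∑ y ∈ T, (x - y).natAbs) (fun _ _ => Nat.zero_le _) hx)
  refine (Set.finite_le_nat B).subset ?_
  rintro p ⟨hp, h1⟩
  show p ≤ B
  by_contra hc
  push Not at hc
  apply h1
  refine nu_eq_one' hp (ha p) T hT hcard fun x hx y hy hd => ?_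
  by_contra hne
  have h2 : x - y ≠ 0 := sub_ne_zero.mpr hne
  have h3 := Int.natAbs_dvd_natAbs.mpr hd
  rw [Int.natAbs_natCast] at h3
  have h4 := Nat.le_of_dvd (Int.natAbs_pos.mpr h2) h3
  have := hB x hx y hy
  omega

/-- elements of `P3` -/
def T3 : Finset ℤ := {5, 7, 11, 13, 17, 19, 23, 41, 43, 47, 101, 103, 107, 109, 113, 191, 193, 197, 227, 229, 233,
  311, 313, 317, 347, 349, 353, 461, 463, 467}

/-- primes representing all classes modulo `29` -/
def T1 : Finset ℤ := {29, 59, 2, 3, 149, 5, 151, 7, 37, 67, 97, 11, 41, 13, 43, 73, 103, 17, 47, 19, 107, 79, 109,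
  23, 53, 83, 113, 317, 173}

theorem mem_P3 (p : ℕ) (h1 : p.Prime) (h2 : (p + 2).Prime) (h3 : (p + 6).Prime) :
    (p : ℤ) ∈ P3 ∧ (p : ℤ) + 2 ∈ P3 ∧ (p : ℤ) + 6 ∈ P3 :=
  ⟨⟨p, h1, h2, h3, Or.inl rfl⟩, ⟨p, h1, h2, h3, Or.inr (Or.inl rfl)⟩, ⟨p, h1, h2, h3, Or.inr (Or.inr rfl)⟩⟩

theorem T3_sub : ∀ x ∈ T3, x ∈ P3 := by
  have h5 := mem_P3 5 (by norm_num) (by norm_num) (by norm_num)
  have h11 := mem_P3 11 (by norm_num) (by norm_num) (by norm_num)
  have h17 := mem_P3 17 (by norm_num) (by norm_num) (by norm_num)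
  have h41 := mem_P3 41 (by norm_num) (by norm_num) (by norm_num)
  have h101 := mem_P3 101 (by norm_num) (by norm_num) (by norm_num)
  have h107 := mem_P3 107 (by norm_num) (by norm_num) (by norm_num)
  have h191 := mem_P3 191 (by norm_num) (by norm_num) (by norm_num)
  have h227 := mem_P3 227 (by norm_num) (by norm_num) (by norm_num)
  have h311 := mem_P3 311 (by norm_num) (by norm_num) (by norm_num)
  have h347 := mem_P3 347 (by norm_num) (by norm_num) (by norm_num)
  have h461 := mem_P3 461 (by norm_num) (by norm_num) (by norm_num)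
  norm_num at h5 h11 h17 h41 h101 h107 h191 h227 h311 h347 h461
  intro x hx
  simp only [T3, mem_insert, mem_singleton] at hx
  rcases hx with rfl | rfl | rfl | rfl | rfl | rfl | rfl | rfl | rfl | rfl | rfl | rfl | rfl | rfl | rfl | rfl |
    rfl | rfl | rfl | rfl | rfl | rfl | rfl | rfl | rfl | rfl | rfl | rfl | rfl | rfl <;> tauto

theorem T1_sub : ∀ x ∈ T1, x ∈ P := by
  intro x hx
  simp only [T1, mem_insert, mem_singleton] at hx
  rcases hx with rfl | rfl | rfl | rfl | rfl | rfl | rfl | rfl | rfl | rfl | rfl | rfl | rfl | rfl | rfl | rfl |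
    rfl | rfl | rfl | rfl | rfl | rfl | rfl | rfl | rfl | rfl | rfl | rfl | rfl
  all_goals
    first
    | exact ⟨29, by norm_num, rfl⟩
    | exact ⟨59, by norm_num, rfl⟩
    | exact ⟨2, by norm_num, rfl⟩
    | exact ⟨3, by norm_num, rfl⟩
    | exact ⟨149, by norm_num, rfl⟩
    | exact ⟨5, by norm_num, rfl⟩
    | exact ⟨151, by norm_num, rfl⟩
    | exact ⟨7, by norm_num, rfl⟩
    | exact ⟨37, by norm_num, rfl⟩
    | exact ⟨67, by norm_num, rfl⟩
    | exact ⟨97, by norm_num, rfl⟩
    | exact ⟨11, by norm_num, rfl⟩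
    | exact ⟨41, by norm_num, rfl⟩
    | exact ⟨13, by norm_num, rfl⟩
    | exact ⟨43, by norm_num, rfl⟩
    | exact ⟨73, by norm_num, rfl⟩
    | exact ⟨103, by norm_num, rfl⟩
    | exact ⟨17, by norm_num, rfl⟩
    | exact ⟨47, by norm_num, rfl⟩
    | exact ⟨19, by norm_num, rfl⟩
    | exact ⟨107, by norm_num, rfl⟩
    | exact ⟨79, by norm_num, rfl⟩
    | exact ⟨109, by norm_num, rfl⟩
    | exact ⟨23, by norm_num, rfl⟩
    | exact ⟨53, by norm_num, rfl⟩
    | exact ⟨83, by norm_num, rfl⟩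
    | exact ⟨113, by norm_num, rfl⟩
    | exact ⟨317, by norm_num, rfl⟩
    | exact ⟨173, by norm_num, rfl⟩

theorem T1_dis : ∀ x ∈ T1, ∀ y ∈ T1, ((29 : ℕ) : ℤ) ∣ x - y → x = y := by decide

/-- no element of `P3` is divisible by `29` -/
theorem P3_unit {x : ℤ} (hx : x ∈ P3) : ¬ (29 : ℤ) ∣ x := by
  obtain ⟨p, h1, h2, h3, h⟩ := hx
  have h29 : ∀ m : ℕ, m.Prime → (29 : ℤ) ∣ m → m = 29 := by
    intro m hm hd
    have : 29 ∣ m := by exact_mod_cast hd
    exact ((Nat.prime_dvd_prime_iff_eq (by norm_num) hm).mp this).symm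
  intro hd
  rcases h with rfl | rfl | rfl
  · have := h29 p h1 hd
    subst this
    norm_num at h3
  · have := h29 (p + 2) h2 (by exact_mod_cast hd)
    obtain rfl : p = 27 := by omega
    norm_num at h1
  · have := h29 (p + 6) h3 (by exact_mod_cast hd)
    obtain rfl : p = 23 := by omega
    norm_num at h2

theorem finprod_eq {f : ℕ → ℕ} (h : {p : ℕ | p.Prime ∧ f p ≠ 1}.Finite) :
    ∏ᶠ (p : ℕ) (_ : p.Prime), f p = ∏ p ∈ h.toFinset, f p := by
  apply finprod_mem_eq_prod_of_inter_mulSupport_eq (s := {p : ℕ | p.Prime}) f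
  ext p
  simp

/-- `29` divides `28!_{P3}` -/
theorem dvd_P3 {N : ℕ} (h : IsFactorial P3 28 N) : 29 ∣ N := by
  obtain ⟨a, ha, hfin, rfl⟩ := h
  have h29 : Nat.Prime 29 := by norm_num
  have hmain : 29 ∣ w 29 (∏ i ∈ range 28, (a 29 28 - a 29 i)) := by
    have ho := ha 29 h29
    obtain ⟨b, hb⟩ : ∃ b, b = a 29 := ⟨_, rfl⟩
    rw [← hb] at ho ⊢
    -- two of the 29 elements are congruent
    have hcast : ∀ i ∈ range 29, ((b i : ℤ) % 29).toNat ∈ Finset.Icc 1 28 := by
      intro i hi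
      have h1 := P3_unit (ho i (by have := mem_range.mp hi; omega)).1
      rw [Finset.mem_Icc]
      omega
    obtain ⟨i, hi, j, hj, hij, he⟩ := Finset.exists_ne_map_eq_of_card_lt_of_maps_to
      (by simp) hcast
    have hdvd : ∀ i j : ℕ, i ∈ range 29 → j ∈ range 29 → ((b i : ℤ) % 29).toNat = ((b j : ℤ) % 29).toNat →
        (29 : ℤ) ∣ b j - b i := by
      intro i j _ _ h
      omega
    wlog hlt : i < j generalizing i j
    · exact this j hj i hi hij.symm he.symm (by omega)
    have hd := hdvd i j hi hj he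
    rcases Nat.lt_or_ge j 28 with hj' | hj'
    · -- then `b 28` was admissible at step `j`
      by_contra hcon
      have hne : ∀ i < 28, ¬ (29 : ℤ) ∣ b 28 - b i := by
        intro k hk hdk
        apply hcon
        apply dvd_w h29 (prod_ne_zero' (ho 28 le_rfl).2.1)
        exact (by exact_mod_cast hdk : ((29 : ℕ) : ℤ) ∣ b 28 - b k).trans
          (Finset.dvd_prod_of_mem (fun i => b 28 - b i) (mem_range.mpr hk))
      have h1 := (ho j (by omega)).2.2 (b 28) (ho 28 le_rfl).1 (fun k hk => (ho 28 le_rfl).2.1 k (by omega))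
      have h2 : w 29 (∏ i ∈ range j, (b 28 - b i)) = 1 := by
        apply w_eq_one
        rw [(Nat.prime_iff_prime_int.mp h29).dvd_finsetProd_iff]
        rintro ⟨k, hk, hdk⟩
        exact hne k (by have := mem_range.mp hk; omega) (by exact_mod_cast hdk)
      have h3 : 29 ∣ w 29 (∏ i ∈ range j, (b j - b i)) := by
        apply dvd_w h29 (prod_ne_zero' (ho j (by omega)).2.1)
        exact (by exact_mod_cast hd : ((29 : ℕ) : ℤ) ∣ b j - b i).trans
          (Finset.dvd_prod_of_mem (fun i => b j - b i) (mem_range.mpr hlt))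
      have h4 := Nat.le_of_dvd (w_pos h29 _) h3
      omega
    · obtain rfl : j = 28 := by have := mem_range.mp hj; omega
      apply dvd_w h29 (prod_ne_zero' (ho 28 le_rfl).2.1)
      exact (by exact_mod_cast hd : ((29 : ℕ) : ℤ) ∣ b 28 - b i).trans
        (Finset.dvd_prod_of_mem (fun i => b 28 - b i) (mem_range.mpr hlt))
  rw [finprod_eq hfin]
  refine hmain.trans (Finset.dvd_prod_of_mem (fun p => w p (∏ i ∈ range 28, (a p 28 - a p i))) ?_)
  rw [Set.Finite.mem_toFinset]
  refine ⟨h29, fun h1 => ?_⟩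
  have := Nat.le_of_dvd (w_pos h29 _) hmain
  omega

/-- `29` does not divide `28!_P` -/
theorem not_dvd_P {N : ℕ} (h : IsFactorial P 28 N) : ¬ 29 ∣ N := by
  obtain ⟨a, ha, hfin, rfl⟩ := h
  have h29 : Nat.Prime 29 := by norm_num
  rw [finprod_eq hfin, h29.prime.dvd_finsetProd_iff]
  rintro ⟨p, hp, hd⟩
  rw [Set.Finite.mem_toFinset] at hp
  obtain ⟨hp1, hp2⟩ := hp
  have : 29 ∣ p := h29.dvd_of_dvd_pow hd
  obtain rfl := (Nat.prime_dvd_prime_iff_eq h29 hp1).mp this
  exact hp2 (nu_eq_one' h29 (ha 29 h29) T1 T1_sub (by decide) T1_dis)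

/-- The conjectured identity fails at `n = 28`: the factorials `28!_{P3}` and `28!_P` exist, and the first is never the
conjectured ratio `3! w_2(28) w_3(28) = 24` times the second. -/
theorem result : (∃ N, IsFactorial P3 28 N) ∧ (∃ M, IsFactorial P 28 M) ∧
    ∀ N M, IsFactorial P3 28 N → IsFactorial P 28 M → N ≠ ratio 28 * M := by
  refine ⟨exists_factorial 28 T3 T3_sub (by decide), exists_factorial 28 T1 T1_sub (by decide),
    fun N M hN hM he => ?_⟩
  have h1 := dvd_P3 hN
  rw [he, Nat.Prime.dvd_mul (by norm_num)] at h1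
  rcases h1 with h1 | h1
  · have h2 : ratio 28 = 24 := by
      have e2 : w 2 (28 : ℕ) = 4 := by
        unfold w
        have : padicValInt 2 ((28 : ℕ) : ℤ) = 2 := by
          rw [padicValInt.of_nat]
          rw [show (28 : ℕ) = 2 ^ 2 * 7 by norm_num, padicValNat.mul (by norm_num) (by norm_num),
            padicValNat.prime_pow, padicValNat.eq_zero_of_not_dvd (by norm_num)]
        rw [this]
        norm_num
      have e3 : w 3 (28 : ℕ) = 1 := w_eq_one (by norm_num)
      unfold ratio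
      rw [if_pos (by decide), e2, e3]
      rfl
    rw [h2] at h1
    norm_num at h1
  · exact not_dvd_P hM h1

end Pool.Agent.Results.MP_1b3ee4_nt.FailsAtTwentyEight
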